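import Pool.Agent.Lib.MP_a4afae_al.Mean
import Pool.Agent.Lib.MP_a4afae_al.Growth

/-!
# MP_a4afae_al: an amenable two-generated group whose graded group algebra over the field with two
elements has exponential growth
-/

set_option autoImplicit false

open scoped ENNReal

namespace Pool.Agent.Results.MP_a4afae_al.VershikCounterexample

/-- The augmentation `F_p[G] → F_p`, the algebra homomorphism which sends every `g ∈ G` to `1`. -/
noncomputable def augHom (p : ℕ) (G : Type) [Group G] :
    MonoidAlgebra (ZMod p) G →ₐ[ZMod p] ZMod p :=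
  MonoidAlgebra.lift (ZMod p) (ZMod p) G (1 : G →* ZMod p)

/-- The augmentation ideal `M`, the kernel of the augmentation, as a subspace of `F_p[G]`. -/
noncomputable def augIdeal (p : ℕ) (G : Type) [Group G] :
    Submodule (ZMod p) (MonoidAlgebra (ZMod p) G) :=
  LinearMap.ker (augHom p G).toLinearMap

/-- The powers of the augmentation ideal: `M^0 = F_p[G]` and `M^(n+1) = M^n M` (the span of the
products). -/
noncomputable def augPow (p : ℕ) (G : Type) [Group G] :
    ℕ → Submodule (ZMod p) (MonoidAlgebra (ZMod p) G)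
  | 0 => ⊤
  | n + 1 => augPow p G n * augIdeal p G

/-- `a_n`, the dimension over `F_p` of the component `M^n / M^(n+1)` of `gr F_p[G]`. -/
noncomputable def grDim (p : ℕ) (G : Type) [Group G] (n : ℕ) : ℕ :=
  Module.finrank (ZMod p) (augPow p G n ⧸ (augPow p G (n + 1)).submoduleOf (augPow p G n))

/-- Exponential growth of `gr F_p[G]`: `limsup (a_0 + ... + a_n)^(1/n) > 1`. -/
def ExpGrowth (p : ℕ) (G : Type) [Group G] : Prop :=
  1 < Filter.limsup
    (fun n : ℕ => ((∑ i ∈ Finset.range (n + 1), grDim p G i : ℕ) : ℝ≥0∞) ^ (1 / (n : ℝ)))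
    Filter.atTop

/-- Amenability: a finitely additive left-invariant probability mean on all subsets of `G`. -/
def Amenable (G : Type) [Group G] : Prop :=
  ∃ μ : Set G → ℝ, (∀ S, 0 ≤ μ S) ∧ μ Set.univ = 1 ∧
    (∀ A B : Set G, Disjoint A B → μ (A ∪ B) = μ A + μ B) ∧
    ∀ (g : G) (S : Set G), μ ((fun x => g * x) '' S) = μ S

/-! ## Comparison with the library -/

theorem augHom_of (p : ℕ) (G : Type) [Group G] (g : G) :
    augHom p G (MonoidAlgebra.of (ZMod p) G g) = 1 := by
  rw [augHom, MonoidAlgebra.lift_of]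
  rfl

theorem sub_aug_mem (p : ℕ) [Fact p.Prime] (G : Type) [Group G]
    (x : MonoidAlgebra (ZMod p) G) :
    x - algebraMap (ZMod p) _ (augHom p G x) ∈ MPa4afae.aug (ZMod p) G := by
  induction x using MonoidAlgebra.induction_on with
  | of g =>
    rw [augHom_of, map_one]
    exact MPa4afae.of_sub_one_mem g
  | add f g hf hg =>
    have h := Submodule.add_mem _ hf hg
    have h2 : f + g - algebraMap (ZMod p) (MonoidAlgebra (ZMod p) G) (augHom p G (f + g)) =
        (f - algebraMap (ZMod p) _ (augHom p G f)) +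
          (g - algebraMap (ZMod p) _ (augHom p G g)) := by
      rw [map_add, map_add]
      abel
    rw [h2]
    exact h
  | smul r f hf =>
    have h := Submodule.smul_mem _ r hf
    have h2 : r • f - algebraMap (ZMod p) (MonoidAlgebra (ZMod p) G) (augHom p G (r • f)) =
        r • (f - algebraMap (ZMod p) _ (augHom p G f)) := by
      rw [map_smul, smul_sub, Algebra.algebraMap_eq_smul_one, Algebra.algebraMap_eq_smul_one,
        smul_eq_mul, mul_smul]
    rw [h2]
    exact h

theorem augIdeal_eq (p : ℕ) [Fact p.Prime] (G : Type) [Group G] :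
    augIdeal p G = MPa4afae.aug (ZMod p) G := by
  apply le_antisymm
  · intro x hx
    have h1 : augHom p G x = 0 := LinearMap.mem_ker.1 hx
    have h2 := sub_aug_mem p G x
    rw [h1, map_zero, sub_zero] at h2
    exact h2
  · rw [MPa4afae.aug, Submodule.span_le]
    rintro _ ⟨g, rfl⟩
    change MonoidAlgebra.of (ZMod p) G g - 1 ∈ augIdeal p G
    rw [augIdeal, LinearMap.mem_ker]
    change augHom p G (MonoidAlgebra.of (ZMod p) G g - 1) = 0
    rw [map_sub, augHom_of, map_one, sub_self]

theorem top_mul_augIdeal (p : ℕ) (G : Type) [Group G] :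
    (⊤ : Submodule (ZMod p) (MonoidAlgebra (ZMod p) G)) * augIdeal p G = augIdeal p G := by
  apply le_antisymm
  · rw [Submodule.mul_le]
    intro m _ n hn
    have h1 : augHom p G n = 0 := LinearMap.mem_ker.1 hn
    rw [augIdeal, LinearMap.mem_ker]
    change augHom p G (m * n) = 0
    rw [map_mul, h1, mul_zero]
  · intro x hx
    have := Submodule.mul_mem_mul (Submodule.mem_top (R := ZMod p)
      (x := (1 : MonoidAlgebra (ZMod p) G))) hx
    rwa [one_mul] at this

theorem augPow_succ_eq (p : ℕ) [Fact p.Prime] (G : Type) [Group G] (n : ℕ) :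
    augPow p G (n + 1) = MPa4afae.aug (ZMod p) G ^ (n + 1) := by
  induction n with
  | zero =>
    rw [zero_add, pow_one, ← augIdeal_eq]
    exact top_mul_augIdeal p G
  | succ n ih =>
    rw [pow_succ, ← ih, ← augIdeal_eq]
    rfl

theorem augPow_anti (p : ℕ) [Fact p.Prime] (G : Type) [Group G] (n : ℕ) :
    augPow p G (n + 1) ≤ augPow p G n := by
  induction n with
  | zero => exact le_top
  | succ n ih =>
    change augPow p G (n + 1) * augIdeal p G ≤ augPow p G n * augIdeal p G
    exact mul_le_mul' ih le_rfl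

/-- Dimension count for a chain `N ≤ L ≤ A`. -/
theorem finrank_chain {k A : Type} [Field k] [AddCommGroup A] [Module k A]
    (N L : Submodule k A) (hNL : N ≤ L) [Module.Finite k (A ⧸ N)] :
    Module.finrank k (A ⧸ N) = Module.finrank k (A ⧸ L) +
      Module.finrank k (L ⧸ N.submoduleOf L) := by
  let f : L →ₗ[k] A ⧸ N := N.mkQ.comp L.subtype
  have hker : LinearMap.ker f = N.submoduleOf L := by
    ext x
    simp [f, Submodule.submoduleOf]
  have hrange : LinearMap.range f = L.map N.mkQ := by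
    simp only [f]
    rw [LinearMap.range_comp, Submodule.range_subtype]
  have h1 : Module.finrank k (L ⧸ N.submoduleOf L) = Module.finrank k (L.map N.mkQ) := by
    rw [← hker, ← hrange]
    exact (f.quotKerEquivRange).finrank_eq
  have h2 : Module.finrank k ((A ⧸ N) ⧸ L.map N.mkQ) = Module.finrank k (A ⧸ L) :=
    (Submodule.quotientQuotientEquivQuotient N L hNL).finrank_eq
  rw [h1, ← h2]
  exact (Submodule.finrank_quotient_add_finrank (L.map N.mkQ)).symm

theorem sum_grDim (p : ℕ) [Fact p.Prime] (G : Type) [Group G] (hG : Group.FG G) (n : ℕ) :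
    ∑ i ∈ Finset.range (n + 1), grDim p G i =
      Module.finrank (ZMod p) (MonoidAlgebra (ZMod p) G ⧸ augPow p G (n + 1)) := by
  have hfin : ∀ m, Module.Finite (ZMod p) (MonoidAlgebra (ZMod p) G ⧸ augPow p G (m + 1)) := by
    intro m
    rw [augPow_succ_eq]
    exact MPa4afae.finite_quotient hG m
  induction n with
  | zero =>
    have := hfin 0
    have h := finrank_chain (augPow p G 1) (augPow p G 0) (augPow_anti p G 0)
    rw [h]
    have h0 : Module.finrank (ZMod p) (MonoidAlgebra (ZMod p) G ⧸ augPow p G 0) = 0 := by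
      change Module.finrank (ZMod p) (MonoidAlgebra (ZMod p) G ⧸
        (⊤ : Submodule (ZMod p) (MonoidAlgebra (ZMod p) G))) = 0
      exact Module.finrank_zero_of_subsingleton
    rw [h0, zero_add, zero_add, Finset.sum_range_one]
    rfl
  | succ n ih =>
    have := hfin (n + 1)
    rw [Finset.sum_range_succ, ih]
    exact (finrank_chain (augPow p G (n + 1 + 1)) (augPow p G (n + 1))
      (augPow_anti p G (n + 1))).symm

theorem growth_bound (n : ℕ) :
    (1 / 2 : ℝ) * (17 / 16 : ℝ) ^ n ≤
      ((∑ i ∈ Finset.range (n + 1), grDim 2 MPa4afae.GG i : ℕ) : ℝ) := by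
  rw [sum_grDim 2 _ MPa4afae.GG_fg, augPow_succ_eq]
  have h1 : MPa4afae.D (n / 8) ≤ n := (MPa4afae.D_le _).trans (Nat.mul_div_le n 8)
  have h2 : ((2 ^ (n / 8) : ℕ) : ℝ) ≤ (Module.finrank (ZMod 2)
      (MonoidAlgebra (ZMod 2) MPa4afae.GG ⧸ (MPa4afae.aug (ZMod 2) MPa4afae.GG ^ (n + 1))) : ℝ) := by
    exact_mod_cast MPa4afae.finrank_ge (n / 8) n h1
  refine le_trans ?_ h2
  have h3 : (17 / 16 : ℝ) ^ n ≤ (17 / 16 : ℝ) ^ (8 * (n / 8 + 1)) :=
    pow_le_pow_right₀ (by norm_num) (by omega)
  have h4 : (17 / 16 : ℝ) ^ (8 * (n / 8 + 1)) ≤ 2 ^ (n / 8 + 1) := by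
    rw [pow_mul]
    exact pow_le_pow_left₀ (by positivity) (by norm_num) _
  push_cast
  rw [pow_succ] at h4
  linarith

/-- From a lower bound `C c^n` to the limit superior. -/
theorem expGrowth_of_bound (p : ℕ) (G : Type) [Group G] (c C : ℝ) (hc : 1 < c) (hC : 0 < C)
    (h : ∀ n : ℕ, C * c ^ n ≤ ((∑ i ∈ Finset.range (n + 1), grDim p G i : ℕ) : ℝ)) :
    ExpGrowth p G := by
  -- `d = sqrt c`, `d ^ n ≤ C c ^ n` for large `n`
  obtain ⟨d, hd1, hdc⟩ : ∃ d : ℝ, 1 < d ∧ d < c := exists_between hc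
  have hd0 : (0 : ℝ) < d := by linarith
  have hlim : Filter.Tendsto (fun n : ℕ => C * (c / d) ^ n) Filter.atTop Filter.atTop := by
    apply Filter.Tendsto.const_mul_atTop hC
    exact tendsto_pow_atTop_atTop_of_one_lt ((one_lt_div hd0).2 hdc)
  have hev : ∀ᶠ n : ℕ in Filter.atTop, (ENNReal.ofReal d) ≤
      ((∑ i ∈ Finset.range (n + 1), grDim p G i : ℕ) : ℝ≥0∞) ^ (1 / (n : ℝ)) := by
    filter_upwards [hlim.eventually_ge_atTop 1, Filter.eventually_ge_atTop 1] with n hn hn1
    have hn0 : (0 : ℝ) < (n : ℝ) := by exact_mod_cast hn1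
    have h1 : d ^ n ≤ ((∑ i ∈ Finset.range (n + 1), grDim p G i : ℕ) : ℝ) := by
      refine le_trans ?_ (h n)
      have h2 : C * c ^ n = C * (c / d) ^ n * d ^ n := by
        rw [div_pow]
        field_simp
      rw [h2]
      exact le_mul_of_one_le_left (by positivity) hn
    have h3 : (ENNReal.ofReal d) ^ (n : ℝ) ≤
        ((∑ i ∈ Finset.range (n + 1), grDim p G i : ℕ) : ℝ≥0∞) := by
      rw [ENNReal.rpow_natCast, ← ENNReal.ofReal_pow hd0.le, ← ENNReal.ofReal_natCast]
      exact ENNReal.ofReal_le_ofReal h1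
    have h4 := ENNReal.rpow_le_rpow h3 (z := 1 / (n : ℝ)) (by positivity)
    rw [← ENNReal.rpow_mul, mul_one_div_cancel hn0.ne', ENNReal.rpow_one] at h4
    exact h4
  have h5 : ENNReal.ofReal d ≤ Filter.limsup
      (fun n : ℕ => ((∑ i ∈ Finset.range (n + 1), grDim p G i : ℕ) : ℝ≥0∞) ^ (1 / (n : ℝ)))
      Filter.atTop :=
    Filter.le_limsup_of_frequently_le hev.frequently
  refine lt_of_lt_of_le ?_ h5
  rw [← ENNReal.ofReal_one]
  exact (ENNReal.ofReal_lt_ofReal_iff hd0).2 hd1

theorem closure_top : Subgroup.closure ({MPa4afae.tG, MPa4afae.uG} : Set MPa4afae.GG) = ⊤ := by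
  have h := Subgroup.closure_closure_coe_preimage
    (k := ({MPa4afae.tU, MPa4afae.uU} : Set MPa4afae.Eˣ))
  rw [← h]
  congr 1
  ext x
  simp only [Set.mem_insert_iff, Set.mem_singleton_iff, Set.mem_preimage]
  constructor
  · rintro (rfl | rfl)
    · exact Or.inl rfl
    · exact Or.inr rfl
  · rintro (h | h)
    · exact Or.inl (Subtype.ext h)
    · exact Or.inr (Subtype.ext h)

theorem amenable_GG : Amenable MPa4afae.GG := by
  obtain ⟨μ, h0, h1, hadd, hinv⟩ := MPa4afae.exists_mean MPa4afae.tG MPa4afae.uG closure_top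
    (fun n => (MPa4afae.UN n).subgroupOf _) (fun n => by
      exact Finite.of_injective
        (fun x : (MPa4afae.UN n).subgroupOf
            (Subgroup.closure ({MPa4afae.tU, MPa4afae.uU} : Set MPa4afae.Eˣ)) =>
          (⟨((x : MPa4afae.GG) : MPa4afae.Eˣ), Subgroup.mem_subgroupOf.1 x.2⟩ : MPa4afae.UN n)) (by
          intro x y hxy
          have h2 : ((x : MPa4afae.GG) : MPa4afae.Eˣ) = ((y : MPa4afae.GG) : MPa4afae.Eˣ) :=
            Subtype.mk.inj hxy
          exact Subtype.ext (Subtype.ext h2))) (fun n j hj => by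
      rw [Subgroup.mem_subgroupOf]
      exact MPa4afae.conj_mem n j hj)
  refine ⟨μ, h0, h1, hadd, fun g S => ?_⟩
  have h := hinv g ((fun x => g * x) '' S)
  rw [Set.preimage_image_eq S (mul_right_injective g)] at h
  exact h.symm

/-- There is an amenable group `G` generated by two elements such that the graded algebra
`gr F_2[G]` has exponential growth: `a_0 + ... + a_n ≥ (17/16)^n / 2` for all `n`. -/
theorem result : ∃ (G : Type) (_ : Group G) (t u : G), Subgroup.closure {t, u} = ⊤ ∧
    Amenable G ∧ ExpGrowth 2 G ∧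
    ∀ n : ℕ, (1 / 2 : ℝ) * (17 / 16 : ℝ) ^ n ≤
      ((∑ i ∈ Finset.range (n + 1), grDim 2 G i : ℕ) : ℝ) :=
  ⟨MPa4afae.GG, inferInstance, MPa4afae.tG, MPa4afae.uG, closure_top, amenable_GG,
    expGrowth_of_bound 2 _ (17 / 16) (1 / 2) (by norm_num) (by norm_num) growth_bound,
    growth_bound⟩

end Pool.Agent.Results.MP_a4afae_al.VershikCounterexample
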